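import Pool.Agent.Helper99.SI.StK

set_option autoImplicit false

/-! Project SI, module K15: the form h. -/

namespace Pool.Agent.Helper89.SI

open Pool.Agent.Helper99.SI

/-- the sum over the rotations -/
def FF {n : ℕ} (u : W n → ℂ) (a : W n) : ℂ := ∑ i ∈ Finset.range a.length, u (a.rotate i)

theorem FF_one {n : ℕ} (u : W n → ℂ) (a : W n) : FF u (a.rotate 1) = FF u a := by
  unfold FF
  rw [List.length_rotate]
  have h1 := Finset.sum_range_succ (fun i => u (a.rotate i)) a.length
  have h2 := Finset.sum_range_succ' (fun i => u (a.rotate i)) a.length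
  rw [h1] at h2
  simp only [List.rotate_length, List.rotate_zero] at h2
  have h3 := add_right_cancel h2
  rw [h3]
  refine Finset.sum_congr rfl fun i _ => ?_
  rw [List.rotate_rotate, add_comm]

theorem FF_rot {n : ℕ} (u : W n → ℂ) (a : W n) (j : ℕ) : FF u (a.rotate j) = FF u a := by
  induction j with
  | zero => rw [List.rotate_zero]
  | succ j ih =>
    rw [← List.rotate_rotate, FF_one, ih]

/-- the rotation closure of a set -/
def TT {n : ℕ} (A : Finset (W n)) : Finset (W n) :=
  A.biUnion fun a => (Finset.range a.length).image fun i => a.rotate i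

theorem TT_rot {n : ℕ} (A : Finset (W n)) (j : ℕ) (c : W n) (hc : c ∈ TT A) :
    c.rotate j ∈ TT A := by
  unfold TT at hc ⊢
  rw [Finset.mem_biUnion] at hc ⊢
  obtain ⟨a, ha, hc⟩ := hc
  rw [Finset.mem_image] at hc
  obtain ⟨i, hi, rfl⟩ := hc
  refine ⟨a, ha, ?_⟩
  rw [Finset.mem_image]
  have hpos : 0 < a.length := lt_of_le_of_lt (Nat.zero_le _) (Finset.mem_range.1 hi)
  refine ⟨(i + j) % a.length, Finset.mem_range.2 (Nat.mod_lt _ hpos), ?_⟩
  rw [List.rotate_mod, List.rotate_rotate]

theorem TT_pos {n : ℕ} (A : Finset (W n)) (c : W n) (hc : c ∈ TT A) : c.length ≠ 0 := by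
  unfold TT at hc
  rw [Finset.mem_biUnion] at hc
  obtain ⟨a, ha, hc⟩ := hc
  rw [Finset.mem_image] at hc
  obtain ⟨i, hi, rfl⟩ := hc
  rw [List.length_rotate]
  have := Finset.mem_range.1 hi
  omega

theorem TT_sub {n : ℕ} (A : Finset (W n)) (hA : ([] : W n) ∉ A) : A ⊆ TT A := by
  intro a ha
  unfold TT
  rw [Finset.mem_biUnion]
  refine ⟨a, ha, ?_⟩
  rw [Finset.mem_image]
  refine ⟨0, Finset.mem_range.2 ?_, List.rotate_zero a⟩
  rw [List.length_pos_iff]
  rintro rfl
  exact hA ha

theorem TT_sum {n : ℕ} (A : Finset (W n)) (j : ℕ) (G : W n → ℂ) :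
    ∑ a ∈ TT A, G (a.rotate j) = ∑ a ∈ TT A, G a := by
  classical
  have hinj : Set.InjOn (fun a : W n => a.rotate j) (TT A : Set (W n)) :=
    (List.rotate_injective j).injOn
  have him : (TT A).image (fun a : W n => a.rotate j) = TT A := by
    apply Finset.eq_of_subset_of_card_le
    · intro x hx
      rw [Finset.mem_image] at hx
      obtain ⟨c, hc, rfl⟩ := hx
      exact TT_rot A j c hc
    · rw [Finset.card_image_of_injOn hinj]
  conv_rhs => rw [← him]
  rw [Finset.sum_image hinj]

theorem main_id {n : ℕ} (u : W n → ℂ) (A : Finset (W n)) :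
    ∑ a ∈ TT A, u a * star (FF u a) =
      ∑ a ∈ TT A, ((a.length : ℂ)⁻¹) * (FF u a * star (FF u a)) := by
  classical
  obtain ⟨N, hN⟩ : ∃ N : ℕ, ∀ a ∈ TT A, a.length ≤ N :=
    ⟨(TT A).sup List.length, fun a ha => Finset.le_sup (f := List.length) ha⟩
  have key : ∀ H : W n → W n → ℂ, (∀ a ∈ TT A, ∑ i ∈ Finset.range a.length, H a (a.rotate i) =
      ∑ i ∈ Finset.range N, if i < a.length then H a (a.rotate i) else 0) := by
    intro H a ha
    rw [← Finset.sum_filter]
    refine Finset.sum_congr ?_ fun _ _ => rfl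
    ext i
    simp only [Finset.mem_range, Finset.mem_filter]
    have := hN a ha
    omega
  have e1 : ∑ a ∈ TT A, u a * star (FF u a) = ∑ a ∈ TT A, ∑ i ∈ Finset.range N,
      if i < a.length then ((a.length : ℂ)⁻¹) * (u a * star (FF u a)) else 0 := by
    refine Finset.sum_congr rfl fun a ha => ?_
    rw [← key (fun a _ => ((a.length : ℂ)⁻¹) * (u a * star (FF u a))) a ha, Finset.sum_const,
      Finset.card_range, nsmul_eq_mul, ← mul_assoc, mul_inv_cancel₀, one_mul]
    exact_mod_cast TT_pos A a ha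
  have e2 : ∑ a ∈ TT A, ((a.length : ℂ)⁻¹) * (FF u a * star (FF u a)) =
      ∑ a ∈ TT A, ∑ i ∈ Finset.range N,
      if i < a.length then ((a.length : ℂ)⁻¹) * (u (a.rotate i) * star (FF u a)) else 0 := by
    refine Finset.sum_congr rfl fun a ha => ?_
    rw [← key (fun a b => ((a.length : ℂ)⁻¹) * (u b * star (FF u a))) a ha, ← Finset.mul_sum,
      ← Finset.sum_mul]
    rfl
  rw [e1, e2, Finset.sum_comm, Finset.sum_comm (s := TT A)]
  refine Finset.sum_congr rfl fun i _ => ?_
  rw [← TT_sum A i]
  refine Finset.sum_congr rfl fun a _ => ?_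
  rw [List.length_rotate, FF_rot]

theorem inner {n : ℕ} (v : W n →₀ ℂ) (a : W n) :
    (v.sum fun c s => star s * (rotc a c : ℂ)) = star (FF v a) := by
  classical
  have e1 : ∀ c : W n, (rotc a c : ℂ) =
      ∑ i ∈ Finset.range a.length, if a.rotate i = c then (1 : ℂ) else 0 := by
    intro c
    unfold rotc
    by_cases h : a.length = c.length
    · rw [if_pos h, h, Finset.card_filter]
      push_cast
      rfl
    · rw [if_neg h, Nat.cast_zero]
      symm
      refine Finset.sum_eq_zero fun i _ => ?_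
      rw [if_neg]
      rintro rfl
      exact h (List.length_rotate a i).symm
  unfold Finsupp.sum FF
  simp only [e1, Finset.mul_sum, mul_ite, mul_one, mul_zero]
  rw [Finset.sum_comm, star_sum]
  refine Finset.sum_congr rfl fun i _ => ?_
  rw [Finset.sum_ite_eq]
  split_ifs with h
  · rfl
  · rw [Finsupp.notMem_support_iff.1 h, star_zero]

theorem hf_eq (h1 : StK2) (n : ℕ) (L : Type) [Ring L] [Algebra ℂ L] [StarRing L] [StarModule ℂ L]
    [Nontrivial L] (D : Sys n L) (u v : W n →₀ ℂ) (hv : v [] = 0) :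
    D.hf u v = ∑ a ∈ u.support, u a * star (FF v a) := by
  unfold Sys.hf
  unfold Finsupp.sum
  refine Finset.sum_congr rfl fun a _ => ?_
  rw [← inner v a]
  unfold Finsupp.sum
  rw [Finset.mul_sum]
  refine Finset.sum_congr rfl fun c hc => ?_
  have hcn : c ≠ [] := by
    rintro rfl
    exact (Finsupp.mem_support_iff.1 hc) hv
  have := (h1 n L D c hcn).2.2.2.1 a
  show u a * star (v c) * D.tau c (D.w a) = u a * (star (v c) * (rotc a c : ℂ))
  rw [this, mul_assoc]

theorem hK15 (h1 : StK2) : StK15 := by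
  intro n L _ _ _ _ _ D u v hu hv
  constructor
  · have e : D.hf u u = ∑ a ∈ TT u.support, ((a.length : ℂ)⁻¹) * (FF u a * star (FF u a)) := by
      rw [hf_eq h1 n L D u u hu, ← main_id]
      refine Finset.sum_subset (TT_sub _ ?_) fun a _ ha => ?_
      · rw [Finsupp.mem_support_iff]
        exact fun h => h hu
      · rw [Finsupp.notMem_support_iff.1 ha, zero_mul]
    have e2 : D.hf u u = ((∑ a ∈ TT u.support,
        ((a.length : ℝ)⁻¹) * Complex.normSq (FF u a) : ℝ) : ℂ) := by
      rw [e]
      push_cast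
      refine Finset.sum_congr rfl fun a _ => ?_
      rw [← Complex.mul_conj]
      rfl
    rw [e2]
    refine ⟨?_, Complex.ofReal_im _⟩
    rw [Complex.ofReal_re]
    exact Finset.sum_nonneg fun a _ => mul_nonneg (by positivity) (Complex.normSq_nonneg _)
  · intro hrot
    rw [hf_eq h1 n L D u v hv]
    unfold Finsupp.sum
    refine Finset.sum_congr rfl fun a _ => ?_
    have : FF v a = (a.length : ℂ) * v a := by
      unfold FF
      simp only [hrot, Finset.sum_const, Finset.card_range, nsmul_eq_mul]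
    rw [this, star_mul', star_natCast]
    ring

end Pool.Agent.Helper89.SI
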